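import Pool.Agent.Lib.MP_06cce2_nt.Main

/-!
Short words in the V-basis of `SU(2)`: for every target which is a real multiple of a matrix
`a + i (b X + c Y + d Z)` with integers `a, b, c, d` (a dense set of targets) there are words of
length at most `4 log_5 (1 / ε) + C` within distance `ε`, i.e. the conjectured worst-case bound
holds with a constant depending on the target.
-/

namespace Pool.Agent.Results.MP_06cce2_nt.RationalTargets

open Matrix Complex Quaternion
open Pool.Agent.Lib.MP_06cce2_nt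
open scoped Matrix.Norms.L2Operator

/-- Let `a, b, c, d` be integers, not all zero, and let `U` be the element
`(a + i (b X + c Y + d Z)) / √(a^2 + b^2 + c^2 + d^2)` of `SU(2)`. There is a real `C` such that for
every `0 < ε < 1` some word `u` with letters in the V-basis, of length at most
`4 log_5 (1 / ε) + C`, satisfies `‖U - u‖ < ε` (operator norm). -/
theorem result (a b c d : ℤ) (h : ¬ (a = 0 ∧ b = 0 ∧ c = 0 ∧ d = 0)) :
    ∃ C : ℝ, ∀ ε : ℝ, 0 < ε → ε < 1 → ∃ u : List (Matrix (Fin 2) (Fin 2) ℂ),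
      (∀ A ∈ u, A ∈ VBasis) ∧ (u.length : ℝ) ≤ 4 * Real.logb 5 (1 / ε) + C ∧
      ‖((1 / Real.sqrt ((a : ℝ) ^ 2 + (b : ℝ) ^ 2 + (c : ℝ) ^ 2 + (d : ℝ) ^ 2) : ℝ) : ℂ) •
        ((a : ℂ) • (1 : Matrix (Fin 2) (Fin 2) ℂ) +
          I • ((b : ℂ) • PX + (c : ℂ) • PY + (d : ℂ) • PZ)) - u.prod‖ < ε := by
  have hw : qm a b c (-d) ≠ 0 := by
    intro h0
    apply h
    have h1 := congrArg QuaternionAlgebra.re h0
    have h2 := congrArg QuaternionAlgebra.imI h0
    have h3 := congrArg QuaternionAlgebra.imJ h0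
    have h4 := congrArg QuaternionAlgebra.imK h0
    simp at h1 h2 h3 h4
    exact ⟨h1, h2, h3, h4⟩
  obtain ⟨C, hC⟩ := hasRate_all _ hw
  refine ⟨C, fun ε h1 h2 => ?_⟩
  obtain ⟨u, hu1, hu2, hu3⟩ := hC ε h1 h2
  refine ⟨u, hu1, hu2, ?_⟩
  have e : target (qm a b c (-d)) =
      ((1 / Real.sqrt ((a : ℝ) ^ 2 + (b : ℝ) ^ 2 + (c : ℝ) ^ 2 + (d : ℝ) ^ 2) : ℝ) : ℂ) •
        ((a : ℂ) • (1 : Matrix (Fin 2) (Fin 2) ℂ) +
          I • ((b : ℂ) • PX + (c : ℂ) • PY + (d : ℂ) • PZ)) := by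
    unfold target qmat mat
    rw [normSq_eq]
    simp
  rw [← e]
  exact hu3

end Pool.Agent.Results.MP_06cce2_nt.RationalTargets
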